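import Pool.Agent.HE.Merge

/-!
# Graphs that are minors of a 1-skeleton embed in the surface
-/

namespace Pool.Agent.HE

open Pool.Agent.Lib_helper38.Adj Function

variable {Φ : Type*}

/-- An embedding: the paths of different edges have only points of the graph in common. -/
def IsEmb {W : Type*} {G : SimpleGraph W} {M : FMap Φ} (D : Drawing G M) : Prop :=
  ∀ {u w u' w' : W} (h : G.Adj u w) (h' : G.Adj u' w'), s(u, w) ≠ s(u', w') →
    ∀ p ∈ (D.arc h).support, p ∈ (D.arc h').support → ∃ z, p = D.pt z

/-- `a0` restricted to the flags with label `w` at both ends -/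
def SameV (M : FMap Φ) {W : Type*} (lab : Φ → Option W) : Prop :=
  ∀ x y, lab x ≠ none → lab x = lab y → M.rV x y

section

variable {W : Type}

/-- Contraction of all label classes. -/
theorem exists_contract [Finite Φ] (M : FMap Φ) (lab : Φ → Option W)
    (h1 : ∀ x, lab (M.a1 x) = lab x) (h2 : ∀ x, lab (M.a2 x) = lab x)
    (hc : ∀ x y, lab x ≠ none → lab x = lab y → M.lk (fun z => lab z = lab x) x y) :
    ∃ N : FMap Φ, N.a0 = M.a0 ∧ N.a2 = M.a2 ∧ (∀ x, lab (N.a1 x) = lab x) ∧
      (∀ x y, lab x ≠ none → lab x = lab y → N.rV x y) ∧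
      N.chi = M.chi ∧ (M.Conn → N.Conn) ∧ (N.Orientable ↔ M.Orientable) := by
  classical
  obtain ⟨n, hn⟩ : ∃ n, n = M.nV := ⟨_, rfl⟩
  induction n using Nat.strong_induction_on generalizing M with
  | _ n ih =>
    by_cases hall : ∀ x y, lab x ≠ none → lab x = lab y → M.rV x y
    · exact ⟨M, rfl, rfl, h1, hall, rfl, id, Iff.rfl⟩
    · push Not at hall
      obtain ⟨x, y, hx, hxy, hV⟩ := hall
      -- a flag whose edge joins two vertices with the same label
      obtain ⟨z, hz, hz0, hzV⟩ : ∃ z, lab z = lab x ∧ lab (M.a0 z) = lab x ∧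
          ¬ M.rV z (M.a0 z) := by
        by_contra hno
        push Not at hno
        refine hV ?_
        refine M.lk_le (K := fun z => lab z = lab x) (r := M.rV) (fun p q h => h) ?_ (hc x y hx hxy)
        intro p hp hp'
        exact hno p hp hp'
      obtain ⟨N, e0, e2, hmono, -, hlab, hnV, hchi, hconn, hor⟩ :=
        exists_merge_surface M hzV (M.rF_a0 z)
      have h1' : ∀ x, lab (N.a1 x) = lab x := hlab lab h1 (hz.trans hz0.symm)
      have h2' : ∀ x, lab (N.a2 x) = lab x := by rw [e2]; exact h2
      have hc' : ∀ x y, lab x ≠ none → lab x = lab y → N.lk (fun z => lab z = lab x) x y := by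
        intro p q hp hpq
        refine M.lk_le (r := N.lk (fun z => lab z = lab p)) (fun a b h => N.lk_rV (hmono a b h)) ?_
          (hc p q hp hpq)
        intro a ha ha'
        rw [← e0]
        refine N.lk_a0 ha ?_
        rw [e0]; exact ha'
      obtain ⟨N', f0, f2, g1, g2, g3, g4, g5⟩ := ih N.nV (by omega) N h1' h2' hc' rfl
      exact ⟨N', f0.trans e0, f2.trans e2, g1, g2, g3.trans hchi, fun h => g4 (hconn h),
        g5.trans hor⟩

/-- A graph with an edge between any two adjacent label classes embeds after the contraction. -/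
theorem exists_emb [Finite Φ] (M : FMap Φ) (G : SimpleGraph W) (lab : Φ → Option W)
    (h1 : ∀ x, lab (M.a1 x) = lab x) (h2 : ∀ x, lab (M.a2 x) = lab x)
    (hc : ∀ x y, lab x ≠ none → lab x = lab y → M.lk (fun z => lab z = lab x) x y)
    (hne : ∀ w, ∃ x, lab x = some w)
    (hadj : ∀ u w, G.Adj u w → ∃ x, lab x = some u ∧ lab (M.a0 x) = some w) :
    ∃ N : FMap Φ, N.chi = M.chi ∧ (M.Conn → N.Conn) ∧ (N.Orientable ↔ M.Orientable) ∧
      ∃ D : Drawing G N, IsEmb D := by
  classical
  obtain ⟨N, e0, e2, g1, g2, g3, g4, g5⟩ := exists_contract M lab h1 h2 hc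
  refine ⟨N, g3, g4, g5, ?_⟩
  choose s hs using hne
  have hrV : ∀ x y, N.rV x y → lab x = lab y := by
    intro x y h
    refine gen_eq ?_ h
    rintro f (rfl | rfl) x
    · exact g1 x
    · rw [e2]; exact h2 x
  have hpt : ∀ u x, lab x = some u → Quotient.mk N.rV x = Quotient.mk N.rV (s u) := by
    intro u x hx
    exact Quotient.sound (g2 x (s u) (by rw [hx]; simp) (by rw [hx, hs]))
  have hinj : Injective (fun w => Quotient.mk N.rV (s w)) := by
    intro u w h
    have h' : N.rV (s u) (s w) := Quotient.exact h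
    have := hrV _ _ h'
    rw [hs, hs] at this
    exact Option.some.inj this
  have hskel : ∀ {u w : W}, G.Adj u w →
      N.skel.Adj (Quotient.mk N.rV (s u)) (Quotient.mk N.rV (s w)) := by
    intro u w h
    refine ⟨fun e => h.ne (hinj e), ?_⟩
    obtain ⟨x, hx, hx'⟩ := hadj u w h
    refine ⟨x, hpt u x hx, hpt w _ ?_⟩
    rw [e0]; exact hx'
  refine ⟨{ pt := fun w => Quotient.mk N.rV (s w)
            pt_inj := hinj
            arc := fun h => SimpleGraph.Walk.cons (hskel h) SimpleGraph.Walk.nil
            arc_symm := ?_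
            arc_path := ?_
            arc_pt := ?_
            arc_edges := ?_
            general := ?_ }, ?_⟩
  · intro u w h; rfl
  · intro u w h
    have := (hskel h).ne
    simp [this]
  · intro u w h z hz
    simp only [SimpleGraph.Walk.support_cons, SimpleGraph.Walk.support_nil, List.mem_cons,
      List.not_mem_nil, or_false] at hz
    rcases hz with e | e
    · exact Or.inl (hinj e)
    · exact Or.inr (hinj e)
  · intro u w u' w' h h' hne' e he he'
    simp only [SimpleGraph.Walk.edges_cons, SimpleGraph.Walk.edges_nil, List.mem_cons,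
      List.not_mem_nil, or_false] at he he'
    apply hne'
    rw [he] at he'
    rcases Sym2.eq_iff.1 he' with ⟨a, b⟩ | ⟨a, b⟩
    · rw [hinj a, hinj b]
    · rw [hinj a, hinj b]; exact Sym2.eq_swap
  · intro p hp u w u' w' u'' w'' h h' h'' hs' _ _
    exfalso
    simp only [SimpleGraph.Walk.support_cons, SimpleGraph.Walk.support_nil, List.mem_cons,
      List.not_mem_nil, or_false] at hs'
    rcases hs' with e | e
    · exact hp _ e
    · exact hp _ e
  · intro u w u' w' h h' _ p hp _
    simp only [SimpleGraph.Walk.support_cons, SimpleGraph.Walk.support_nil, List.mem_cons,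
      List.not_mem_nil, or_false] at hp
    rcases hp with e | e
    · exact ⟨_, e⟩
    · exact ⟨_, e⟩

end

/-- If the graph `G` is a minor of the 1-skeleton of `M` then `G` embeds in the surface of `M`. -/
theorem minor_embeds [Finite Φ] (M : FMap Φ) (hM : M.Conn) {W : Type} (G : SimpleGraph W)
    (T : W → Set M.Vert) (hne : ∀ w, (T w).Nonempty)
    (hconn : ∀ w, (M.skel.induce (T w)).Preconnected)
    (hdis : ∀ u w, u ≠ w → Disjoint (T u) (T w))
    (hadj : ∀ u w, G.Adj u w → ∃ p ∈ T u, ∃ q ∈ T w, M.skel.Adj p q) :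
    ∃ N : FMap Φ, N.Conn ∧ N.chi = M.chi ∧ (N.Orientable ↔ M.Orientable) ∧
      ∃ D : Drawing G N, IsEmb D := by
  classical
  -- the label of a flag
  let lab : Φ → Option W := fun x =>
    if h : ∃ w, Quotient.mk M.rV x ∈ T w then some h.choose else none
  have hlab : ∀ x w, lab x = some w ↔ Quotient.mk M.rV x ∈ T w := by
    intro x w
    by_cases h : ∃ w, Quotient.mk M.rV x ∈ T w
    · have e : lab x = some h.choose := dif_pos h
      rw [e]
      constructor
      · intro e'
        rw [← Option.some.inj e']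
        exact h.choose_spec
      · intro hw
        by_contra hcon
        have hne' : h.choose ≠ w := fun e' => hcon (by rw [e'])
        exact Set.disjoint_left.1 (hdis _ _ hne') h.choose_spec hw
    · have e : lab x = none := dif_neg h
      rw [e]
      constructor
      · intro e'; exact absurd e' (by simp)
      · intro hw; exact absurd ⟨w, hw⟩ h
  have hlabV : ∀ x y, M.rV x y → lab x = lab y := by
    intro x y h
    have e : Quotient.mk M.rV x = Quotient.mk M.rV y := Quotient.sound h
    simp only [lab]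
    rw [e]
  have hc : ∀ x y, lab x ≠ none → lab x = lab y → M.lk (fun z => lab z = lab x) x y := by
    intro x y hx hxy
    obtain ⟨w, hw⟩ := Option.ne_none_iff_exists'.1 hx
    have hx' := (hlab x w).1 hw
    have hy' := (hlab y w).1 (hxy ▸ hw)
    obtain ⟨c⟩ := hconn w ⟨_, hx'⟩ ⟨_, hy'⟩
    have key : ∀ {p q : T w} (c : (M.skel.induce (T w)).Walk p q) (x y : Φ),
        Quotient.mk M.rV x = p.1 → Quotient.mk M.rV y = q.1 →
        M.lk (fun z => lab z = some w) x y := by
      intro p q c
      induction c with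
      | nil =>
        intro x y hx hy
        exact M.lk_rV (Quotient.exact (hx.trans hy.symm))
      | @cons p r q hadj' c ih =>
        intro x y hx hy
        obtain ⟨z, hz1, hz2⟩ := (show M.skel.Adj p.1 r.1 from hadj').2
        refine Setoid.trans' _ (M.lk_rV (Quotient.exact (hx.trans hz1.symm))) (Setoid.trans' _
          (M.lk_a0 (x := z) ?_ ?_) (ih (M.a0 z) y hz2 hy))
        · exact (hlab z w).2 (by rw [hz1]; exact p.2)
        · exact (hlab _ w).2 (by rw [hz2]; exact r.2)
    have e : (fun z => lab z = lab x) = (fun z => lab z = some w) := by rw [hw]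
    rw [e]
    exact key c x y rfl rfl
  obtain ⟨N, g3, g4, g5, D, hD⟩ := exists_emb M G lab
    (fun x => (hlabV _ _ (M.rV_a1 x)).symm) (fun x => (hlabV _ _ (M.rV_a2 x)).symm) hc
    (fun w => by
      obtain ⟨p, hp⟩ := hne w
      induction p using Quotient.inductionOn with | _ x => exact ⟨x, (hlab x w).2 hp⟩)
    (fun u w h => by
      obtain ⟨p, hp, q, hq, h'⟩ := hadj u w h
      obtain ⟨x, hx, hx'⟩ := h'.2
      exact ⟨x, (hlab x u).2 (by rw [hx]; exact hp), (hlab _ w).2 (by rw [hx']; exact hq)⟩)
  exact ⟨N, g4 hM, g3, g5, D, hD⟩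

end Pool.Agent.HE
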