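import Pool.Agent.HE.PM
import Pool.Agent.Lib_helper38.Adj.Defs

/-!
# Half-edge theorem, part 1: territories

Every edge is cut into two halves such that every crossing of two edges with the common end `y` lies on
the half at `y` of at least one of them. Then there are disjoint connected sets of points, one for each
vertex of `G`, such that the sets of adjacent vertices are joined by an edge of the 1-skeleton.
-/

namespace Pool.Agent.Lib_helper38.Adj

open Function Set

/-- A cut of every edge of a drawing into two halves: the half of the edge `u w` at `u` consists of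
its points number `0, …, c`, counted from `u`; the half at `w` of the others. -/
structure Drawing.Cut {Φ W : Type*} {G : SimpleGraph W} {M : FMap Φ} (D : Drawing G M) where
  c : ∀ {u w : W}, G.Adj u w → ℕ
  symm : ∀ {u w : W} (h : G.Adj u w), c h + c h.symm + 1 = (D.arc h).length

/-- The half condition: every point common to two edges with the common end `y` is on the half at `y`
of at least one of them. -/
def Drawing.Cut.Half {Φ W : Type*} {G : SimpleGraph W} {M : FMap Φ} {D : Drawing G M}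
    (C : D.Cut) : Prop :=
  ∀ {w t y : W} (h : G.Adj w y) (h' : G.Adj t y), w ≠ t → ∀ i j : ℕ,
    i ≤ (D.arc h).length → j ≤ (D.arc h').length →
    (D.arc h).getVert i = (D.arc h').getVert j → C.c h < i ∨ C.c h' < j

namespace HEX

variable {Φ W : Type} {G : SimpleGraph W} {M : FMap Φ} {D : Drawing G M} (C : D.Cut)

/-- how far the head starting at `u` has grown on the edge `u w` -/
noncomputable def hd (x : Sym2 W → ℝ) {u w : W} (h : G.Adj u w) : ℝ := x s(u, w) * (C.c h + 1 / 2)

/-- the head starting at `u` on the edge `u w` strictly covers `p` -/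
def SC (x : Sym2 W → ℝ) {u w : W} (h : G.Adj u w) (p : M.Vert) : Prop :=
  ∃ i : Fin ((D.arc h).length + 1), (D.arc h).getVert i = p ∧ (i : ℝ) < hd C x h

/-- the head starting at `u` on the edge `u w` covers or touches `p` -/
def TC (x : Sym2 W → ℝ) {u w : W} (h : G.Adj u w) (p : M.Vert) : Prop :=
  ∃ i : Fin ((D.arc h).length + 1), (D.arc h).getVert i = p ∧ (i : ℝ) ≤ hd C x h

/-- contact of the head at `w` on the edge `w y` with the head at `y` on the edge `y t` -/
def Touch (x : Sym2 W → ℝ) {w y t : W} (h : G.Adj w y) (h' : G.Adj y t) : Prop :=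
  ∃ (i : Fin ((D.arc h).length + 1)) (j : Fin ((D.arc h').length + 1)),
    (D.arc h).getVert i = (D.arc h').getVert j ∧ (i : ℝ) ≤ hd C x h ∧ (j : ℝ) ≤ hd C x h'

/-- conflict of the head at `w` on the edge `w y` with the head at `y` on the edge `y t` -/
def Conf (x : Sym2 W → ℝ) {w y t : W} (h : G.Adj w y) (h' : G.Adj y t) : Prop :=
  ∃ (i : Fin ((D.arc h).length + 1)) (j : Fin ((D.arc h').length + 1)),
    (D.arc h).getVert i = (D.arc h').getVert j ∧ (i : ℝ) < hd C x h ∧ (j : ℝ) < hd C x h'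

/-- the edge `e` is realised -/
def Real' (x : Sym2 W → ℝ) (e : Sym2 W) : Prop :=
  x e = 1 ∨ ∃ (w y t : W) (h : G.Adj w y) (h' : G.Adj y t), t ≠ w ∧ e = s(w, y) ∧ Touch C x h h'

/-- the edge `e` is over-realised -/
def Over (x : Sym2 W → ℝ) (e : Sym2 W) : Prop :=
  ∃ (w y t : W) (h : G.Adj w y) (h' : G.Adj y t), t ≠ w ∧ e = s(w, y) ∧ Conf C x h h'

theorem hd_cont {u w : W} (h : G.Adj u w) : Continuous fun x : Sym2 W → ℝ => hd C x h :=
  (continuous_apply _).mul continuous_const

theorem closed_iUnion_prop {α : Type} [TopologicalSpace α] {P : Prop} {s : P → Set α}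
    (h : ∀ p, IsClosed (s p)) : IsClosed (⋃ p, s p) := isClosed_iUnion_of_finite h

theorem closed_real [Finite W] (e : Sym2 W) : IsClosed {x : Sym2 W → ℝ | Real' C x e} := by
  have h1 : {x : Sym2 W → ℝ | Real' C x e} = {x | x e = 1} ∪
      ⋃ (w : W) (y : W) (t : W) (h : G.Adj w y) (h' : G.Adj y t) (_ : t ≠ w) (_ : e = s(w, y))
        (i : Fin ((D.arc h).length + 1)) (j : Fin ((D.arc h').length + 1))
        (_ : (D.arc h).getVert i = (D.arc h').getVert j),
        {x : Sym2 W → ℝ | (i : ℝ) ≤ hd C x h ∧ (j : ℝ) ≤ hd C x h'} := by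
    ext x
    simp only [Real', Touch, mem_ofPred_eq, mem_union, mem_iUnion, exists_prop]
  rw [h1]
  refine (isClosed_eq (continuous_apply e) continuous_const).union ?_
  refine isClosed_iUnion_of_finite fun w => isClosed_iUnion_of_finite fun y =>
    isClosed_iUnion_of_finite fun t => isClosed_iUnion_of_finite fun h =>
    isClosed_iUnion_of_finite fun h' => isClosed_iUnion_of_finite fun _ =>
    isClosed_iUnion_of_finite fun _ => isClosed_iUnion_of_finite fun i =>
    isClosed_iUnion_of_finite fun j => isClosed_iUnion_of_finite fun _ => ?_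
  exact (isClosed_le continuous_const (hd_cont C h)).inter
    (isClosed_le continuous_const (hd_cont C h'))

theorem open_over [Finite W] (e : Sym2 W) : IsOpen {x : Sym2 W → ℝ | Over C x e} := by
  have h1 : {x : Sym2 W → ℝ | Over C x e} =
      ⋃ (w : W) (y : W) (t : W) (h : G.Adj w y) (h' : G.Adj y t) (_ : t ≠ w) (_ : e = s(w, y))
        (i : Fin ((D.arc h).length + 1)) (j : Fin ((D.arc h').length + 1))
        (_ : (D.arc h).getVert i = (D.arc h').getVert j),
        {x : Sym2 W → ℝ | (i : ℝ) < hd C x h ∧ (j : ℝ) < hd C x h'} := by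
    ext x
    simp only [Over, Conf, mem_ofPred_eq, mem_iUnion, exists_prop]
  rw [h1]
  refine isOpen_iUnion fun w => isOpen_iUnion fun y => isOpen_iUnion fun t =>
    isOpen_iUnion fun h => isOpen_iUnion fun h' => isOpen_iUnion fun _ =>
    isOpen_iUnion fun _ => isOpen_iUnion fun i => isOpen_iUnion fun j =>
    isOpen_iUnion fun _ => ?_
  exact (isOpen_lt continuous_const (hd_cont C h)).inter
    (isOpen_lt continuous_const (hd_cont C h'))

/-- the state: all edges are realised and none is over-realised -/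
theorem exists_state [Finite W] : ∃ x : Sym2 W → ℝ, (∀ e, 0 ≤ x e ∧ x e ≤ 1) ∧
    ∀ e, ¬ Over C x e ∧ Real' C x e := by
  classical
  have := Fintype.ofFinite W
  have h := HE.pm (ι := Sym2 W) (fun e => {x | Over C x e}ᶜ) (fun e => {x | Real' C x e})
    (fun e => (open_over C e).isClosed_compl) (fun e => closed_real C e) ?_ ?_ ?_
  · obtain ⟨x, hx, h1⟩ := h
    exact ⟨x, hx, fun e => h1 e⟩
  · intro e x _
    by_cases hx : Over C x e
    · right
      obtain ⟨w, y, t, h, h', h1, h2, i, j, h3, h4, h5⟩ := hx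
      exact Or.inr ⟨w, y, t, h, h', h1, h2, i, j, h3, h4.le, h5.le⟩
    · exact Or.inl hx
  · rintro e x _ hx ⟨w, y, t, h, h', h1, h2, i, j, h3, h4, h5⟩
    rw [hd, ← h2, hx, zero_mul] at h4
    exact absurd h4 (not_lt.2 (Nat.cast_nonneg _))
  · intro e x _ hx
    exact Or.inl hx

variable {C}
variable {x : Sym2 W → ℝ}

theorem le_c_of_le (hx : ∀ e, 0 ≤ x e ∧ x e ≤ 1) {u w : W} (h : G.Adj u w) {i : ℕ}
    (hi : (i : ℝ) ≤ hd C x h) : i ≤ C.c h := by
  have h1 : hd C x h ≤ C.c h + 1 / 2 := by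
    rw [hd]
    have h2 := (hx s(u, w)).2
    have h3 : (0 : ℝ) ≤ C.c h + 1 / 2 := by positivity
    nlinarith
  have h2 : (i : ℝ) < (C.c h + 1 : ℕ) := by
    push_cast
    linarith
  have h3 : i < C.c h + 1 := by exact_mod_cast h2
  omega

theorem c_lt_length {u w : W} (h : G.Adj u w) : C.c h < (D.arc h).length := by
  have := C.symm h
  omega

theorem getVert_symm {u w : W} (h : G.Adj u w) (i : ℕ) :
    (D.arc h.symm).getVert i = (D.arc h).getVert ((D.arc h).length - i) := by
  rw [D.arc_symm h, SimpleGraph.Walk.getVert_reverse]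

theorem length_symm {u w : W} (h : G.Adj u w) : (D.arc h.symm).length = (D.arc h).length := by
  rw [D.arc_symm h, SimpleGraph.Walk.length_reverse]

/-- no point is covered or touched from both ends of an edge -/
theorem not_both {u w : W} (h : G.Adj u w) {i j : ℕ} (hi : i ≤ C.c h) (hj : j ≤ C.c h.symm)
    (hij : (D.arc h).getVert i = (D.arc h.symm).getVert j) : False := by
  have h1 := C.symm h
  rw [getVert_symm h j] at hij
  have h2 := (D.arc_path h).getVert_injOn (show i ≤ _ by omega)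
    (show (D.arc h).length - j ≤ _ by omega) hij
  omega

/-- the only vertex in the half of an edge at `u` is `u` -/
theorem pt_half {u w : W} (h : G.Adj u w) {i : ℕ} (hi : i ≤ C.c h) {z : W}
    (hz : (D.arc h).getVert i = D.pt z) : z = u ∧ i = 0 := by
  have hlt := c_lt_length (C := C) h
  have h1 : D.pt z ∈ (D.arc h).support := by
    rw [← hz]
    exact SimpleGraph.Walk.getVert_mem_support _ _
  rcases D.arc_pt h z h1 with rfl | rfl
  · refine ⟨rfl, ?_⟩
    have h2 : (D.arc h).getVert i = (D.arc h).getVert 0 := by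
      rw [hz, SimpleGraph.Walk.getVert_zero]
    exact (D.arc_path h).getVert_injOn (show i ≤ _ by omega) (Nat.zero_le _) h2
  · exfalso
    have h2 : (D.arc h).getVert i = (D.arc h).getVert (D.arc h).length := by
      rw [hz, SimpleGraph.Walk.getVert_length]
    have h3 := (D.arc_path h).getVert_injOn (show i ≤ _ by omega)
      (show (D.arc h).length ≤ (D.arc h).length from le_rfl) h2
    omega

/-- two heads which strictly cover a point have the same origin -/
theorem sc_unique (hD : D.indep = ∅) (hC : C.Half) (hx : ∀ e, 0 ≤ x e ∧ x e ≤ 1)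
    (hO : ∀ e, ¬ Over C x e) {u w u' w' : W} (h : G.Adj u w) (h' : G.Adj u' w') {p : M.Vert}
    (hp : SC C x h p) (hp' : SC C x h' p) : u = u' := by
  obtain ⟨i, hi1, hi2⟩ := hp
  obtain ⟨j, hj1, hj2⟩ := hp'
  have hi3 := le_c_of_le hx h hi2.le
  have hj3 := le_c_of_le hx h' hj2.le
  have hij := hi1.trans hj1.symm
  by_contra hne
  have hmem : p ∈ (D.arc h).support := by
    rw [← hi1]; exact SimpleGraph.Walk.getVert_mem_support _ _
  have hmem' : p ∈ (D.arc h').support := by
    rw [← hj1]; exact SimpleGraph.Walk.getVert_mem_support _ _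
  have hcase : u = w' ∨ w = u' ∨ w = w' := by
    by_contra hcon
    push Not at hcon
    have : p ∈ D.indep := ⟨u, w, u', w', h, h', hmem, hmem', hne, hcon.1, hcon.2.1, hcon.2.2⟩
    rw [hD] at this
    exact this
  rcases hcase with rfl | rfl | rfl
  · by_cases hwu : w = u'
    · subst hwu
      exact not_both h hi3 hj3 hij
    · exact hO s(u', u) ⟨u', u, w, h', h, hwu, rfl, j, i, hij.symm, hj2, hi2⟩
  · by_cases hwu : w' = u
    · subst hwu
      exact not_both h hi3 hj3 hij
    · exact hO s(u, w) ⟨u, w, w', h, h', hwu, rfl, i, j, hij, hi2, hj2⟩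
  · rcases hC h h' hne i j (by omega) (by omega) hij with h1 | h1
    · omega
    · omega

/-- `p` is the vertex `u` or is strictly covered by a head starting at `u` -/
def Str (C : D.Cut) (x : Sym2 W → ℝ) (u : W) (p : M.Vert) : Prop :=
  p = D.pt u ∨ ∃ (w : W) (h : G.Adj u w), SC C x h p

/-- `p` is touched by a head starting at `u` -/
def Tou (C : D.Cut) (x : Sym2 W → ℝ) (u : W) (p : M.Vert) : Prop :=
  ∃ (w : W) (h : G.Adj u w), TC C x h p

/-- the territory of `u` -/
def Ter (C : D.Cut) (x : Sym2 W → ℝ) (u : W) : Set M.Vert :=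
  {p | Str C x u p ∨ ((∀ u', ¬ Str C x u' p) ∧ ∃ h : ∃ u', Tou C x u' p, h.choose = u)}

theorem str_unique (hD : D.indep = ∅) (hC : C.Half) (hx : ∀ e, 0 ≤ x e ∧ x e ≤ 1)
    (hO : ∀ e, ¬ Over C x e) {u u' : W} {p : M.Vert} (hp : Str C x u p) (hp' : Str C x u' p) :
    u = u' := by
  rcases hp with rfl | ⟨w, h, hp⟩
  · rcases hp' with hp' | ⟨w', h', j, hj1, hj2⟩
    · exact D.pt_inj hp'
    · exact (pt_half h' (le_c_of_le hx h' hj2.le) hj1).1
  · rcases hp' with rfl | ⟨w', h', hp'⟩
    · obtain ⟨i, hi1, hi2⟩ := hp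
      exact (pt_half h (le_c_of_le hx h hi2.le) hi1).1.symm
    · exact sc_unique hD hC hx hO h h' hp hp'

theorem ter_disjoint (hD : D.indep = ∅) (hC : C.Half) (hx : ∀ e, 0 ≤ x e ∧ x e ≤ 1)
    (hO : ∀ e, ¬ Over C x e) {u u' : W} {p : M.Vert} (hp : p ∈ Ter C x u)
    (hp' : p ∈ Ter C x u') : u = u' := by
  rcases hp with hp | ⟨hp, hL⟩
  · rcases hp' with hp' | ⟨hp', -⟩
    · exact str_unique hD hC hx hO hp hp'
    · exact absurd hp (hp' u)
  · rcases hp' with hp' | ⟨hp', hL'⟩
    · exact absurd hp' (hp u')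
    · obtain ⟨h1, rfl⟩ := hL
      obtain ⟨h2, rfl⟩ := hL'
      rfl

theorem pt_mem_ter (u : W) : D.pt u ∈ Ter C x u := Or.inl (Or.inl rfl)

theorem sc_mem_ter {u w : W} (h : G.Adj u w) {p : M.Vert} (hp : SC C x h p) :
    p ∈ Ter C x u := Or.inl (Or.inr ⟨w, h, hp⟩)

/-- the points before a touched point are strictly covered -/
theorem sc_before (hx : ∀ e, 0 ≤ x e ∧ x e ≤ 1) {u w : W} (h : G.Adj u w) {i k : ℕ}
    (hi : (i : ℝ) ≤ hd C x h) (hk : k < i) : SC C x h ((D.arc h).getVert k) := by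
  have h1 := le_c_of_le hx h hi
  have h2 := c_lt_length (C := C) h
  refine ⟨⟨k, by omega⟩, rfl, lt_of_lt_of_le ?_ hi⟩
  exact_mod_cast hk

theorem reach_aux (hx : ∀ e, 0 ≤ x e ∧ x e ≤ 1) {u w : W} (h : G.Adj u w) {i : ℕ}
    (hi : (i : ℝ) ≤ hd C x h) : ∀ (k : ℕ) (_ : k ≤ i)
    (hm : (D.arc h).getVert k ∈ Ter C x u),
    (M.skel.induce (Ter C x u)).Reachable ⟨D.pt u, pt_mem_ter u⟩ ⟨(D.arc h).getVert k, hm⟩ := by
  have h1 := le_c_of_le hx h hi
  have h2 := c_lt_length (C := C) h
  intro k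
  induction k with
  | zero =>
    intro _ hm
    have e : (⟨D.pt u, pt_mem_ter u⟩ : Ter C x u) = ⟨(D.arc h).getVert 0, hm⟩ :=
      Subtype.ext (SimpleGraph.Walk.getVert_zero _).symm
    rw [e]
  | succ k ih =>
    intro hk hm
    have hk' := sc_mem_ter h (sc_before hx h hi (show k < i by omega))
    refine (ih (by omega) hk').trans (SimpleGraph.Adj.reachable ?_)
    rw [SimpleGraph.comap_adj]
    exact (D.arc h).adj_getVert_succ (by omega)

theorem ter_reach (hx : ∀ e, 0 ≤ x e ∧ x e ≤ 1) {u : W} {p : M.Vert} (hp : p ∈ Ter C x u) :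
    (M.skel.induce (Ter C x u)).Reachable ⟨D.pt u, pt_mem_ter u⟩ ⟨p, hp⟩ := by
  have key : ∀ (w : W) (h : G.Adj u w), TC C x h p →
      (M.skel.induce (Ter C x u)).Reachable ⟨D.pt u, pt_mem_ter u⟩ ⟨p, hp⟩ := by
    rintro w h ⟨i, hi1, hi⟩
    subst hi1
    exact reach_aux hx h hi i le_rfl hp
  have hp2 := hp
  rcases hp2 with hp' | ⟨-, hL⟩
  · rcases hp' with hp' | ⟨w, h, i, hi1, hi2⟩
    · subst hp'
      exact SimpleGraph.Reachable.refl _
    · exact key w h ⟨i, hi1, hi2.le⟩
  · obtain ⟨h1, h2⟩ := hL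
    have h3 := h1.choose_spec
    rw [h2] at h3
    obtain ⟨w, h, ht⟩ := h3
    exact key w h ht

/-- a contact gives adjacent points of the two territories -/
theorem contact (hx : ∀ e, 0 ≤ x e ∧ x e ≤ 1) {w y t : W} (h : G.Adj w y) (h' : G.Adj y t) (htw : t ≠ w)
    (hT : Touch C x h h') :
    ∃ p ∈ Ter C x w, ∃ q ∈ Ter C x y, M.skel.Adj p q := by
  obtain ⟨i, j, hij, hi, hj⟩ := hT
  have hi3 := le_c_of_le hx h hi
  have hj3 := le_c_of_le hx h' hj
  have hl := c_lt_length (C := C) h
  have hl' := c_lt_length (C := C) h'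
  -- the common point is not a vertex of `G`
  have hnp : ∀ z, (D.arc h).getVert i ≠ D.pt z := by
    intro z hz
    obtain ⟨rfl, -⟩ := pt_half h hi3 hz
    obtain ⟨h1, -⟩ := pt_half h' hj3 (hij.symm.trans hz)
    exact h.ne h1
  have hi0 : 0 < (i : ℕ) := by
    rcases Nat.eq_zero_or_pos i with h0 | h0
    · exfalso
      apply hnp w
      rw [h0, SimpleGraph.Walk.getVert_zero]
    · exact h0
  have hj0 : 0 < (j : ℕ) := by
    rcases Nat.eq_zero_or_pos j with h0 | h0
    · exfalso
      apply hnp y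
      rw [hij, h0, SimpleGraph.Walk.getVert_zero]
    · exact h0
  -- the points before
  have hb1 : (D.arc h).getVert (i - 1) ∈ Ter C x w :=
    sc_mem_ter h (sc_before hx h hi (by omega))
  have hb2 : (D.arc h').getVert (j - 1) ∈ Ter C x y :=
    sc_mem_ter h' (sc_before hx h' hj (by omega))
  have ha1 : M.skel.Adj ((D.arc h).getVert (i - 1)) ((D.arc h).getVert i) := by
    have h1 := (D.arc h).adj_getVert_succ (i := i - 1) (by omega)
    rwa [show (i : ℕ) - 1 + 1 = i by omega] at h1
  have ha2 : M.skel.Adj ((D.arc h').getVert (j - 1)) ((D.arc h).getVert i) := by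
    have h1 := (D.arc h').adj_getVert_succ (i := j - 1) (by omega)
    rw [show (j : ℕ) - 1 + 1 = j by omega] at h1
    rwa [hij]
  have fin1 : (D.arc h).getVert i ∈ Ter C x w →
      ∃ p ∈ Ter C x w, ∃ q ∈ Ter C x y, M.skel.Adj p q :=
    fun hm => ⟨_, hm, _, hb2, ha2.symm⟩
  have fin2 : (D.arc h).getVert i ∈ Ter C x y →
      ∃ p ∈ Ter C x w, ∃ q ∈ Ter C x y, M.skel.Adj p q :=
    fun hm => ⟨_, hb1, _, hm, ha1⟩
  -- every touching head starts at `w` or `y`
  have key : ∀ u, Tou C x u ((D.arc h).getVert i) → u = w ∨ u = y := by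
    rintro u ⟨v, h'', k, hk1, hk2⟩
    have hk3 := le_c_of_le hx h'' hk2
    have hm1 : (D.arc h).getVert i ∈ (D.arc h).support :=
      SimpleGraph.Walk.getVert_mem_support _ _
    have hm2 : (D.arc h).getVert i ∈ (D.arc h').support := by
      rw [hij]; exact SimpleGraph.Walk.getVert_mem_support _ _
    have hm3 : (D.arc h).getVert i ∈ (D.arc h'').support := by
      rw [← hk1]; exact SimpleGraph.Walk.getVert_mem_support _ _
    rcases D.general _ hnp h h' h'' hm1 hm2 hm3 with h1 | h1 | h1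
    · exfalso
      rw [Sym2.eq_iff] at h1
      rcases h1 with ⟨h1, -⟩ | ⟨h1, -⟩
      · exact h.ne h1
      · exact htw h1.symm
    · rw [Sym2.eq_iff] at h1
      rcases h1 with ⟨rfl, rfl⟩ | ⟨rfl, rfl⟩
      · exact Or.inl rfl
      · exact Or.inr rfl
    · rw [Sym2.eq_iff] at h1
      rcases h1 with ⟨rfl, rfl⟩ | ⟨rfl, rfl⟩
      · exact Or.inr rfl
      · exfalso
        exact not_both h' hj3 hk3 (hij.symm.trans hk1.symm)
  by_cases hs : ∃ u, Str C x u ((D.arc h).getVert i)
  · obtain ⟨u, hu⟩ := hs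
    have hu' : Tou C x u ((D.arc h).getVert i) := by
      rcases hu with hu | ⟨v, h'', k, hk1, hk2⟩
      · exact absurd hu (hnp u)
      · exact ⟨v, h'', k, hk1, hk2.le⟩
    rcases key u hu' with rfl | rfl
    · exact fin1 (Or.inl hu)
    · exact fin2 (Or.inl hu)
  · push Not at hs
    have hex : ∃ u', Tou C x u' ((D.arc h).getVert i) := ⟨w, y, h, i, rfl, hi⟩
    rcases key _ hex.choose_spec with h1 | h1
    · exact fin1 (Or.inr ⟨hs, hex, h1⟩)
    · exact fin2 (Or.inr ⟨hs, hex, h1⟩)

end HEX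

open HEX in
/-- The territories: if the half condition holds then `G` is a minor of the 1-skeleton, with the
branch set of `u` containing the point of `u`. -/
theorem Drawing.Cut.exists_minor {Φ W : Type} [Finite W] {G : SimpleGraph W} {M : FMap Φ}
    {D : Drawing G M} (C : D.Cut) (hD : D.indep = ∅) (hC : C.Half) :
    ∃ T : W → Set M.Vert, (∀ u, D.pt u ∈ T u) ∧
      (∀ u p (hp : p ∈ T u) (hu : D.pt u ∈ T u), (M.skel.induce (T u)).Reachable ⟨D.pt u, hu⟩ ⟨p, hp⟩) ∧
      (∀ u u' p, p ∈ T u → p ∈ T u' → u = u') ∧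
      ∀ w y, G.Adj w y → ∃ p ∈ T w, ∃ q ∈ T y, M.skel.Adj p q := by
  obtain ⟨x, hx, hR⟩ := exists_state C
  have hO : ∀ e, ¬ Over C x e := fun e => (hR e).1
  refine ⟨Ter C x, pt_mem_ter, fun u p hp _ => ter_reach hx hp,
    fun u u' p hp hp' => ter_disjoint hD hC hx hO hp hp', ?_⟩
  intro w y h
  rcases (hR s(w, y)).2 with h1 | ⟨w', y', t, h1, h2, h3, h4, h5⟩
  · have h2 := C.symm h
    have e1 : hd C x h = C.c h + 1 / 2 := by rw [hd, h1, one_mul]
    have e2 : hd C x h.symm = C.c h.symm + 1 / 2 := by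
      rw [hd, Sym2.eq_swap, h1, one_mul]
    refine ⟨(D.arc h).getVert (C.c h), sc_mem_ter h ⟨⟨C.c h, by omega⟩, rfl, ?_⟩,
      (D.arc h.symm).getVert (C.c h.symm), sc_mem_ter h.symm
        ⟨⟨C.c h.symm, by rw [length_symm h]; omega⟩, rfl, ?_⟩, ?_⟩
    · rw [e1]
      simp
    · rw [e2]
      simp
    · rw [getVert_symm h]
      have h3 : (D.arc h).length - C.c h.symm = C.c h + 1 := by omega
      rw [h3]
      exact (D.arc h).adj_getVert_succ (by omega)
  · have h6 := contact hx h1 h2 h3 h5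
    rw [Sym2.eq_iff] at h4
    rcases h4 with ⟨rfl, rfl⟩ | ⟨rfl, rfl⟩
    · exact h6
    · obtain ⟨p, hp, q, hq, hpq⟩ := h6
      exact ⟨q, hq, p, hp, hpq.symm⟩

end Pool.Agent.Lib_helper38.Adj
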