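import Pool.Agent.HE.Core
import Pool.Agent.Lib_helper38.Adj.Drawing

/-!
# Half-edge theorem, part 3: drawings that have a cut with the half condition
-/

namespace Pool.Agent.Lib_helper38.Adj

open Function Set

variable {Φ W : Type} {G : SimpleGraph W} {M : FMap Φ}

/-- The crossing points of a drawing: the points on two different edges that are no vertices. -/
def Drawing.cross (D : Drawing G M) : Set M.Vert :=
  {p | (∀ z, p ≠ D.pt z) ∧ ∃ e ∈ D.through p, ∃ f ∈ D.through p, e ≠ f}

namespace HEX

variable (D : Drawing G M)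

theorem len_pos {u w : W} (h : G.Adj u w) : 0 < (D.arc h).length := by
  rcases Nat.eq_zero_or_pos (D.arc h).length with h0 | h0
  · exact absurd (D.pt_inj (SimpleGraph.Walk.eq_of_length_eq_zero h0)) h.ne
  · exact h0

theorem pos_of_ne {u w : W} (h : G.Adj u w) {i : ℕ} (hi : (D.arc h).getVert i ≠ D.pt u) :
    0 < i := by
  rcases Nat.eq_zero_or_pos i with rfl | h0
  · exact absurd (SimpleGraph.Walk.getVert_zero _) hi
  · exact h0

theorem lt_of_ne {u w : W} (h : G.Adj u w) {i : ℕ} (hi : (D.arc h).getVert i ≠ D.pt w) :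
    i < (D.arc h).length := by
  by_contra hcon
  exact hi (SimpleGraph.Walk.getVert_of_length_le _ (not_lt.1 hcon))

theorem mem_through {u w : W} (h : G.Adj u w) (i : ℕ) :
    s(u, w) ∈ D.through ((D.arc h).getVert i) :=
  ⟨u, w, h, rfl, SimpleGraph.Walk.getVert_mem_support _ _⟩

/-- the common point `p` of two edges with the common end `y` is `y` or a crossing point -/
theorem pt_or_cross {w t y : W} (h : G.Adj w y) (h' : G.Adj t y) (hwt : w ≠ t) {p : M.Vert}
    (hp : p ∈ (D.arc h).support) (hp' : p ∈ (D.arc h').support) :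
    p = D.pt y ∨ p ∈ D.cross := by
  by_cases hz : ∃ z, p = D.pt z
  · obtain ⟨z, rfl⟩ := hz
    left
    rcases D.arc_pt h z hp with rfl | rfl
    · rcases D.arc_pt h' z hp' with rfl | rfl
      · exact absurd rfl hwt
      · rfl
    · rfl
  · push Not at hz
    right
    refine ⟨hz, s(w, y), ⟨w, y, h, rfl, hp⟩, s(t, y), ⟨t, y, h', rfl, hp'⟩, ?_⟩
    intro e
    rcases Sym2.eq_iff.1 e with ⟨a, _⟩ | ⟨a, b⟩
    · exact hwt a
    · exact hwt (a.trans b)

/-- A cut from a rule for every directed edge that is compatible with reversing. -/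
theorem exists_cut (Q : ∀ {u w : W}, G.Adj u w → ℕ → Prop)
    (hQ : ∀ {u w : W} (h : G.Adj u w) (c : ℕ), c < (D.arc h).length → Q h c →
      Q h.symm ((D.arc h).length - 1 - c))
    (hex : ∀ {u w : W} (h : G.Adj u w), ∃ c < (D.arc h).length, Q h c) :
    ∃ C : D.Cut, ∀ {u w : W} (h : G.Adj u w), Q h (C.c h) := by
  classical
  choose f hf1 hf2 using @hex
  have r : LinearOrder W := linearOrderOfSTO (WellOrderingRel (α := W))
  have key : ∀ {u w : W} (h : G.Adj u w), u < w ∨ w < u := fun h => lt_or_gt_of_ne h.ne
  refine ⟨⟨fun {u w} h => if u < w then f h else (D.arc h).length - 1 - f h.symm, ?_⟩, ?_⟩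
  · intro u w h
    have hl := length_symm (D := D) h
    rcases key h with h1 | h1
    · rw [if_pos h1, if_neg h1.not_gt]
      have := hf1 h
      have e : f h.symm.symm = f h := rfl
      omega
    · rw [if_neg h1.not_gt, if_pos h1]
      have := hf1 h.symm
      omega
  · intro u w h
    simp only
    rcases key h with h1 | h1
    · rw [if_pos h1]
      exact hf2 h
    · rw [if_neg h1.not_gt]
      have := hQ h.symm (f h.symm) (hf1 h.symm) (hf2 h.symm)
      rwa [length_symm (D := D) h] at this

/-- Every crossing point is assigned to one of its edges, at most one to each edge. -/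
theorem exists_half_of_assign (a : M.Vert → Sym2 W) (ha : ∀ p ∈ D.cross, a p ∈ D.through p)
    (hinj : ∀ p ∈ D.cross, ∀ q ∈ D.cross, a p = a q → p = q) : ∃ C : D.Cut, C.Half := by
  classical
  have := @exists_cut Φ W G M D
    (fun {u w} h c => ∀ i ≤ (D.arc h).length, (D.arc h).getVert i ∈ D.cross →
      a ((D.arc h).getVert i) = s(u, w) →
      ((∃ f ∈ D.through ((D.arc h).getVert i), f ≠ s(u, w) ∧ u ∈ f) → i ≤ c) ∧
      ((∃ f ∈ D.through ((D.arc h).getVert i), f ≠ s(u, w) ∧ w ∈ f) → c < i)) ?_ ?_
  · obtain ⟨C, hC⟩ := this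
    refine ⟨C, ?_⟩
    intro w t y h h' hwt i j hi hj hij
    rcases pt_or_cross D h h' hwt (SimpleGraph.Walk.getVert_mem_support (D.arc h) i)
      (by rw [hij]; exact SimpleGraph.Walk.getVert_mem_support (D.arc h') j) with hp | hp
    · left
      have h1 : i = (D.arc h).length := by
        apply (D.arc_path h).getVert_injOn hi (le_refl (D.arc h).length)
        rw [hp, SimpleGraph.Walk.getVert_length]
      rw [h1]
      exact c_lt_length h
    · have hne : s(w, y) ≠ s(t, y) := by
        intro e
        rcases Sym2.eq_iff.1 e with ⟨a, _⟩ | ⟨a, b⟩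
        · exact hwt a
        · exact hwt (a.trans b)
      have h1 := mem_through D h i
      have h2 := mem_through D h' j
      have h2' := h2
      rw [← hij] at h2
      rcases D.through_general hp.1 (ha _ hp) h1 h2 with e | e | e
      · left
        exact (hC h i hi hp e).2 ⟨s(t, y), h2, hne.symm, Sym2.mem_mk_right _ _⟩
      · right
        rw [hij] at hp e h1
        exact (hC h' j hj hp e).2 ⟨s(w, y), h1, hne, Sym2.mem_mk_right _ _⟩
      · exact absurd e hne
  · intro u w h c hc hQ i hi hcr hai
    rw [length_symm h] at hi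
    rw [getVert_symm h] at hcr hai ⊢
    have hu : (D.arc h).getVert ((D.arc h).length - i) ≠ D.pt u := hcr.1 u
    have hw : (D.arc h).getVert ((D.arc h).length - i) ≠ D.pt w := hcr.1 w
    have h1 := pos_of_ne D h hu
    have h2 := lt_of_ne D h hw
    have e : s(w, u) = s(u, w) := Sym2.eq_swap
    rw [e] at hai ⊢
    obtain ⟨h3, h4⟩ := hQ _ (Nat.sub_le _ _) hcr hai
    constructor
    · intro hf
      have := h4 hf
      omega
    · intro hf
      have := h3 hf
      omega
  · intro u w h
    by_cases hex : ∃ i ≤ (D.arc h).length, (D.arc h).getVert i ∈ D.cross ∧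
        a ((D.arc h).getVert i) = s(u, w)
    · obtain ⟨i, hi, hcr, hai⟩ := hex
      have h1 := pos_of_ne D h (hcr.1 u)
      have h2 := lt_of_ne D h (hcr.1 w)
      have huniq : ∀ j ≤ (D.arc h).length, (D.arc h).getVert j ∈ D.cross →
          a ((D.arc h).getVert j) = s(u, w) → j = i := by
        intro j hj hcr' haj
        exact (D.arc_path h).getVert_injOn hj hi (hinj _ hcr' _ hcr (haj.trans hai.symm))
      by_cases hf : ∃ f ∈ D.through ((D.arc h).getVert i), f ≠ s(u, w) ∧ u ∈ f
      · refine ⟨i, h2, ?_⟩
        intro j hj hcr' haj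
        obtain rfl := huniq j hj hcr' haj
        refine ⟨fun _ => le_rfl, ?_⟩
        rintro ⟨g, hg1, hg2, hg3⟩
        obtain ⟨f, hf1, hf2, hf3⟩ := hf
        exfalso
        rcases D.through_general hcr.1 hg1 hf1 (mem_through D h j) with e | e | e
        · subst e
          exact hg2 ((Sym2.mem_and_mem_iff h.ne).1 ⟨hf3, hg3⟩)
        · exact hg2 e
        · exact hf2 e
      · refine ⟨i - 1, by omega, ?_⟩
        intro j hj hcr' haj
        obtain rfl := huniq j hj hcr' haj
        exact ⟨fun hf' => absurd hf' hf, fun _ => by omega⟩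
    · refine ⟨0, len_pos D h, ?_⟩
      intro j hj hcr' haj
      exact absurd ⟨j, hj, hcr', haj⟩ hex

/-- An orientation in which edges with the same head do not cross. -/
theorem exists_half_of_orient (η : Sym2 W → W) (hη : ∀ e ∈ G.edgeSet, η e ∈ e)
    (hcr : ∀ p ∈ D.cross, ∀ e ∈ D.through p, ∀ f ∈ D.through p, e ≠ f → η e ≠ η f) :
    ∃ C : D.Cut, C.Half := by
  classical
  have := @exists_cut Φ W G M D
    (fun {u w} h c => (η s(u, w) = u → c = 0) ∧ (η s(u, w) = w → c + 1 = (D.arc h).length)) ?_ ?_
  · obtain ⟨C, hC⟩ := this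
    refine ⟨C, ?_⟩
    intro w t y h h' hwt i j hi hj hij
    rcases pt_or_cross D h h' hwt (SimpleGraph.Walk.getVert_mem_support (D.arc h) i)
      (by rw [hij]; exact SimpleGraph.Walk.getVert_mem_support (D.arc h') j) with hp | hp
    · left
      have h1 : i = (D.arc h).length := by
        apply (D.arc_path h).getVert_injOn hi (le_refl (D.arc h).length)
        rw [hp, SimpleGraph.Walk.getVert_length]
      rw [h1]
      exact c_lt_length h
    · have hne : s(w, y) ≠ s(t, y) := by
        intro e
        rcases Sym2.eq_iff.1 e with ⟨a, _⟩ | ⟨a, b⟩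
        · exact hwt a
        · exact hwt (a.trans b)
      have h1 := mem_through D h i
      have h2 := mem_through D h' j
      rw [← hij] at h2
      have h3 := hcr _ hp _ h1 _ h2 hne
      have hw := hη s(w, y) h
      have ht := hη s(t, y) h'
      rw [Sym2.mem_iff] at hw ht
      rcases hw with hw | hw
      · left
        rw [(hC h).1 hw]
        exact pos_of_ne D h (hp.1 w)
      · rcases ht with ht | ht
        · right
          rw [(hC h').1 ht]
          exact pos_of_ne D h' (by rw [← hij]; exact hp.1 t)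
        · exact absurd (hw.trans ht.symm) h3
  · intro u w h c hc hQ
    rw [length_symm h, show s(w, u) = s(u, w) from Sym2.eq_swap]
    constructor
    · intro e
      have := hQ.2 e
      omega
    · intro e
      have := hQ.1 e
      omega
  · intro u w h
    have hp := len_pos D h
    have hm := hη s(u, w) h
    rw [Sym2.mem_iff] at hm
    rcases hm with hm | hm
    · refine ⟨0, hp, fun _ => rfl, fun e => absurd (hm.symm.trans e) h.ne⟩
    · refine ⟨(D.arc h).length - 1, by omega, fun e => absurd (e.symm.trans hm) h.ne,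
        fun _ => by omega⟩

/-- Hall's condition: every set of crossing points is on at least as many edges. -/
theorem exists_half_of_hall [Finite W] (hH : ∀ X : Finset M.Vert, (X : Set M.Vert) ⊆ D.cross →
    X.card ≤ (⋃ p ∈ X, D.through p).ncard) : ∃ C : D.Cut, C.Half := by
  classical
  have := Fintype.ofFinite W
  have h1 := (Finset.all_card_le_biUnion_card_iff_exists_injective
    (fun p : D.cross => (D.through p.1).toFinset)).1 ?_
  · obtain ⟨a, ha1, ha2⟩ := h1
    by_cases hW : Nonempty (Sym2 W)
    · obtain ⟨e0⟩ := hW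
      refine exists_half_of_assign D (fun p => if h : p ∈ D.cross then a ⟨p, h⟩ else e0) ?_ ?_
      · intro p hp
        rw [dif_pos hp]
        exact Set.mem_toFinset.1 (ha2 ⟨p, hp⟩)
      · intro p hp q hq e
        rw [dif_pos hp, dif_pos hq] at e
        exact congrArg Subtype.val (ha1 e)
    · refine exists_half_of_orient D (fun e => absurd ⟨e⟩ hW) (fun e => absurd ⟨e⟩ hW)
        (fun p _ e => absurd ⟨e⟩ hW)
  · intro s
    have h2 := hH (s.image Subtype.val) (by
      intro p hp
      rw [Finset.coe_image] at hp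
      obtain ⟨q, _, rfl⟩ := hp
      exact q.2)
    rw [Finset.card_image_of_injective _ Subtype.val_injective] at h2
    refine h2.trans (le_of_eq ?_)
    rw [← Set.ncard_coe_finset]
    congr 1
    ext e
    simp

/-- at most two crossing points on every edge -/
theorem exists_half_of_two [Finite Φ] [Finite W] (h2 : ∀ e ∈ G.edgeSet,
    {p ∈ D.cross | e ∈ D.through p}.ncard ≤ 2) : ∃ C : D.Cut, C.Half := by
  classical
  refine exists_half_of_hall D fun X hX => ?_
  have := Fintype.ofFinite W
  have hfin : Finite M.Vert := inferInstance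
  set E : Finset (Sym2 W) := X.biUnion fun p => (D.through p).toFinset with hE
  have hEc : (⋃ p ∈ X, D.through p).ncard = E.card := by
    rw [← Set.ncard_coe_finset]
    congr 1
    ext e
    simp [hE]
  rw [hEc]
  have h3 : ∀ p ∈ X, 2 ≤ (E.filter fun e => e ∈ D.through p).card := by
    intro p hp
    obtain ⟨_, e, he, f, hf, hne⟩ := hX hp
    have : ({e, f} : Finset (Sym2 W)) ⊆ E.filter fun e => e ∈ D.through p := by
      intro g hg
      rw [Finset.mem_insert, Finset.mem_singleton] at hg
      rw [Finset.mem_filter]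
      rcases hg with rfl | rfl
      · exact ⟨Finset.mem_biUnion.2 ⟨p, hp, Set.mem_toFinset.2 he⟩, he⟩
      · exact ⟨Finset.mem_biUnion.2 ⟨p, hp, Set.mem_toFinset.2 hf⟩, hf⟩
    calc 2 = ({e, f} : Finset (Sym2 W)).card := (Finset.card_pair hne).symm
      _ ≤ _ := Finset.card_le_card this
  have h4 : ∀ e ∈ E, (X.filter fun p => e ∈ D.through p).card ≤ 2 := by
    intro e he
    obtain ⟨p, hp, hep⟩ := Finset.mem_biUnion.1 he
    rw [Set.mem_toFinset] at hep
    obtain ⟨u, w, h, rfl, _⟩ := hep
    refine le_trans ?_ (h2 s(u, w) h)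
    rw [← Set.ncard_coe_finset]
    refine Set.ncard_le_ncard ?_ (Set.toFinite _)
    intro q hq
    rw [Finset.mem_coe, Finset.mem_filter] at hq
    exact ⟨hX hq.1, hq.2⟩
  have h5 := Finset.card_mul_le_card_mul (fun (p : M.Vert) (e : Sym2 W) => e ∈ D.through p)
    (s := X) (t := E) (m := 2) (n := 2) h3 h4
  omega

end HEX

end Pool.Agent.Lib_helper38.Adj
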