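import Pool.Agent.Lib_helper38.Adj.LMap
import Pool.Agent.Lib_helper38.Adj.DefsO

/-!
# Contraction of connected sets of vertices of a map

The vertices of a connected set are united one after the other inside the faces; the surface stays
the same.
-/

namespace Pool.Agent.HE

open Pool.Agent.Lib_helper38.Adj Function

variable {Φ : Type*}

section colour

variable {a b : Φ → Φ} (ha : Involutive a) (ha' : ∀ z, a z ≠ z) (hb : Involutive b)
  (hb' : ∀ z, b z ≠ z)

theorem colour_iter {o : Φ → Bool} (h1 : ∀ x, o (a x) ≠ o x) (h2 : ∀ x, o (b x) ≠ o x) (k : ℕ)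
    (x : Φ) : o ((b ∘ a)^[k] x) = o x := by
  induction k with
  | zero => rfl
  | succ k ih =>
    rw [Function.iterate_succ_apply', ← ih]
    have e1 := h1 ((b ∘ a)^[k] x)
    have e2 := h2 (a ((b ∘ a)^[k] x))
    simp only [comp_apply] at *
    revert e1 e2
    generalize o (b (a ((b ∘ a)^[k] x))) = p
    generalize o (a ((b ∘ a)^[k] x)) = q
    generalize o ((b ∘ a)^[k] x) = r
    cases p <;> cases q <;> cases r <;> simp

variable [DecidableEq Φ]

include hb hb' in
/-- the colour condition for a re-pairing at two points of the same colour -/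
theorem colour_rp {o : Φ → Bool} {x y : Φ} (hbx : y ≠ b x) (h2 : ∀ z, o (b z) ≠ o z)
    (hxy : o y = o x) (z : Φ) : o (rp b x y z) ≠ o z := by
  rcases rp_cases hb hb' hbx z with ⟨e, h⟩ | ⟨e, h⟩ | ⟨e, h⟩ | ⟨e, h⟩ | ⟨-, -, -, -, h⟩
  · rw [h, e, ← hxy]; exact h2 y
  · rw [h, e, hxy]; exact h2 x
  · rw [h, e, hxy]; exact (h2 x).symm
  · rw [h, e, ← hxy]; exact (h2 y).symm
  · rw [h]; exact h2 z

include ha ha' hb hb' in
/-- If the points `x` and `y` lie in different orbits and the re-paired system is coloured then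
they have the same colour. -/
theorem colour_of_rp [Finite Φ] {o : Φ → Bool} {x y : Φ} (hxy : ¬ gen {b, a} x y)
    (h1 : ∀ z, o (a z) ≠ o z) (h2 : ∀ z, o (rp b x y z) ≠ o z) : o y = o x := by
  have hinj : Function.Injective (b ∘ a) := hb.injective.comp ha.injective
  have hbm : b ∈ ({b, a} : Set (Φ → Φ)) := Set.mem_insert _ _
  have ham : a ∈ ({b, a} : Set (Φ → Φ)) := Set.mem_insert_of_mem _ rfl
  have hbx : y ≠ b x := fun h => hxy (h ▸ gen_step hbm x)
  have hper : ∃ n, 0 < n ∧ (b ∘ a)^[n] x = x := by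
    obtain ⟨n, hn, h1⟩ := hinj.mem_periodicPts x
    exact ⟨n, hn, h1⟩
  classical
  obtain ⟨n, ⟨hn, h3⟩, hmin⟩ : ∃ n, (0 < n ∧ (b ∘ a)^[n] x = x) ∧
      ∀ m < n, ¬ (0 < m ∧ (b ∘ a)^[m] x = x) :=
    ⟨Nat.find hper, Nat.find_spec hper, fun m hm => Nat.find_min hper hm⟩
  have hR : ∀ k, gen {b, a} x ((b ∘ a)^[k] x) := by
    intro k
    induction k with
    | zero => exact Setoid.refl' _ _
    | succ k ih =>
      rw [Function.iterate_succ_apply']
      exact Setoid.trans' _ ih (Setoid.trans' _ (gen_step ham _) (gen_step hbm _))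
  have key : ∀ k < n, o ((b ∘ a)^[k] x) = o x := by
    intro k
    induction k with
    | zero => intro _; rfl
    | succ k ih =>
      intro hk
      have h4 : rp b x y (a ((b ∘ a)^[k] x)) = (b ∘ a)^[k + 1] x := by
        rw [Function.iterate_succ_apply']
        refine rp_other hb ?_ ?_ ?_ ?_
        · intro h
          exact iterate_ne' ha ha' hb hb' 0 k x h.symm
        · intro h
          exact hxy (h ▸ Setoid.trans' _ (hR k) (gen_step ham _))
        · intro h
          refine hmin (k + 1) hk ⟨Nat.succ_pos _, ?_⟩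
          rw [Function.iterate_succ_apply']
          simp only [comp_apply, h, hb _]
        · intro h
          have : gen {b, a} x (b y) := h ▸ Setoid.trans' _ (hR k) (gen_step ham _)
          have h4 := Setoid.trans' _ this (gen_step hbm (b y))
          rw [hb] at h4
          exact hxy h4
      have e0 := ih (by omega)
      have e1 := h1 ((b ∘ a)^[k] x)
      have e2 := h2 (a ((b ∘ a)^[k] x))
      rw [h4] at e2
      rw [← e0]
      revert e1 e2
      generalize o ((b ∘ a)^[k + 1] x) = p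
      generalize o (a ((b ∘ a)^[k] x)) = q
      generalize o ((b ∘ a)^[k] x) = r
      cases p <;> cases q <;> cases r <;> simp
  obtain ⟨m, rfl⟩ : ∃ m, n = m + 1 := ⟨n - 1, by omega⟩
  have h5 : a ((b ∘ a)^[m] x) = b x := by
    rw [Function.iterate_succ_apply'] at h3
    have : b (a ((b ∘ a)^[m] x)) = x := h3
    rw [← this, hb, this]
  have e0 := key m (Nat.lt_succ_self m)
  have e1 := h1 ((b ∘ a)^[m] x)
  rw [h5] at e1
  have e2 := h2 (b x)
  rw [rp_b_left hb hb' hbx] at e2
  rw [← e0]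
  revert e1 e2
  generalize o y = p
  generalize o (b x) = q
  generalize o ((b ∘ a)^[m] x) = r
  cases p <;> cases q <;> cases r <;> simp

end colour

section merge

variable [DecidableEq Φ] [Finite Φ] (M : FMap Φ)

/-- Uniting two vertices within a face: the surface stays the same. -/
theorem exists_merge_surface {x y : Φ} (hV : ¬ M.rV x y) (hF : M.rF x y) :
    ∃ N : FMap Φ, N.a0 = M.a0 ∧ N.a2 = M.a2 ∧ (∀ p q, M.rV p q → N.rV p q) ∧ N.rV x y ∧
      (∀ {α : Type} (f : Φ → α), (∀ z, f (M.a1 z) = f z) → f x = f y →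
        ∀ z, f (N.a1 z) = f z) ∧
      M.nV = N.nV + 1 ∧ N.chi = M.chi ∧ (M.Conn → N.Conn) ∧ (N.Orientable ↔ M.Orientable) := by
  have hyx : y ≠ x := fun h => hV (h ▸ Setoid.refl' _ _)
  have hbx : y ≠ M.a1 x := fun h => hV (h ▸ M.rV_a1 x)
  obtain ⟨y', hy', hk⟩ : ∃ y', (y' = y ∨ y' = M.a1 y) ∧ ∃ k : ℕ, (M.a1 ∘ M.a0)^[k] x = y' := by
    rcases gen_two M.i0 M.i1 hF with h1 | ⟨k, hk⟩
    · exact ⟨y, Or.inl rfl, h1⟩
    · refine ⟨M.a1 y, Or.inr rfl, k + 1, ?_⟩
      rw [Function.iterate_succ_apply', hk]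
      simp only [comp_apply, M.i0 _]
  have hyx' : y' ≠ x := by
    rcases hy' with rfl | rfl
    · exact hyx
    · intro h; exact hbx (by rw [← h, M.i1])
  obtain ⟨h2, h3⟩ := rp_split M.i0 M.f0 M.i1 M.f1 hyx' hk
  have hV' : ¬ M.rV x y' := by
    rcases hy' with rfl | rfl
    · exact hV
    · exact fun h => hV (Setoid.trans' _ h (Setoid.symm' _ (M.rV_a1 y)))
  have hF' : M.rF x y' := by
    rcases hy' with rfl | rfl
    · exact hF
    · exact Setoid.trans' _ hF (M.rF_a1 y)
  have hm : (M.repair x y').rV x y' := rp_merge M.i2 M.f2 M.i1 M.f1 hV'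
  have hV1 : ∀ p q, M.rV p q → (M.repair x y').rV p q := fun p q h =>
    gen_rp_of_not M.i1 M.f1 h2 _ hm h
  have hC1 : M.rC x y' := M.rF_rC hF'
  have hCC : ∀ p q, M.rC p q → (M.repair x y').rC p q := fun p q h =>
    gen_rp_of_not M.i1 M.f1 h2 _ ((M.repair x y').rV_rC hm) h
  have nV : M.nV = (M.repair x y').nV + 1 := nc_rp_merge M.i1 M.f1 h2 _ hV' hm
  have nF : (M.repair x y').nF = M.nF + 1 := nc_rp_split M.i1 M.f1 h2 _ hF' h3
  have nE : (M.repair x y').nE = M.nE := rfl
  refine ⟨M.repair x y', rfl, rfl, hV1, ?_, ?_, nV, ?_, fun h p q => hCC p q (h p q), ?_⟩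
  · rcases hy' with rfl | rfl
    · exact hm
    · exact Setoid.trans' _ hm (hV1 _ _ (Setoid.symm' _ (M.rV_a1 y)))
  · intro α f hf hxy z
    have hxy' : f x = f y' := by
      rcases hy' with rfl | rfl
      · exact hxy
      · rw [hf]; exact hxy
    change f (rp M.a1 x y' z) = f z
    rcases rp_cases M.i1 M.f1 h2 z with ⟨h, e⟩ | ⟨h, e⟩ | ⟨h, e⟩ | ⟨h, e⟩ | ⟨-, -, -, -, e⟩
    · rw [e, h, hf, hxy']
    · rw [e, h, hf, hxy']
    · rw [e, h, hf, hxy']
    · rw [e, h, hf, hxy']
    · rw [e, hf]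
  · unfold FMap.chi
    rw [nE, nF, nV]
    push_cast
    ring
  · constructor
    · rintro ⟨o, ho⟩
      have e0 : o y' = o x := colour_of_rp M.i2 M.f2 M.i1 M.f1 hV' (fun z => (ho z).2.2)
        (fun z => (ho z).2.1)
      refine ⟨o, fun z => ⟨(ho z).1, ?_, (ho z).2.2⟩⟩
      have h4 : M.a1 z = rp (rp M.a1 x y') x y' z := by
        simp only [rp, Equiv.swap_apply_self]
      rw [h4]
      refine colour_rp (rp_involutive M.i1) (rp_ne M.f1) ?_ (fun z => (ho z).2.1) e0 z
      rw [rp_left M.i1 M.f1 h2]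
      exact fun h => M.f1 y' h.symm
    · rintro ⟨o, ho⟩
      refine ⟨o, fun z => ⟨(ho z).1, ?_, (ho z).2.2⟩⟩
      obtain ⟨k, hk⟩ := hk
      exact colour_rp M.i1 M.f1 h2 (fun z => (ho z).2.1)
        (by rw [← hk]; exact colour_iter (fun z => (ho z).1) (fun z => (ho z).2.1) k x) z

end merge

end Pool.Agent.HE
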