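import Pool.Agent.LTV.Fix

/-!
# Poincaré–Miranda for closed coverings of a cube
-/

namespace HE

open Set Metric

theorem pm {ι : Type} [Fintype ι] (A B : ι → Set (ι → ℝ)) (hA : ∀ i, IsClosed (A i))
    (hB : ∀ i, IsClosed (B i))
    (hAB : ∀ i x, (∀ j, 0 ≤ x j ∧ x j ≤ 1) → x ∈ A i ∨ x ∈ B i)
    (h0 : ∀ i x, (∀ j, 0 ≤ x j ∧ x j ≤ 1) → x i = 0 → x ∈ A i)
    (h1 : ∀ i x, (∀ j, 0 ≤ x j ∧ x j ≤ 1) → x i = 1 → x ∈ B i) :
    ∃ x : ι → ℝ, (∀ j, 0 ≤ x j ∧ x j ≤ 1) ∧ ∀ i, x ∈ A i ∧ x ∈ B i := by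
  classical
  set cl : ℝ → ℝ := fun t => max 0 (min 1 t) with hcl
  have hcl0 : ∀ t, 0 ≤ cl t := fun t => le_max_left _ _
  have hcl1 : ∀ t, cl t ≤ 1 := fun t => max_le zero_le_one (min_le_left _ _)
  have hclid : ∀ t, 0 ≤ t → t ≤ 1 → cl t = t := by
    intro t h h'
    rw [hcl]
    simp only
    rw [min_eq_right h', max_eq_right h]
  have hclc : Continuous cl := continuous_const.max (continuous_const.min continuous_id)
  have hne0 : ∀ i, (A i).Nonempty := fun i =>
    ⟨0, h0 i 0 (fun j => ⟨le_rfl, zero_le_one⟩) rfl⟩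
  have hne1 : ∀ i, (B i).Nonempty := fun i =>
    ⟨1, h1 i 1 (fun j => ⟨zero_le_one, le_rfl⟩) rfl⟩
  set c : (ι → ℝ) → (ι → ℝ) := fun x i => cl (x i) with hc
  have hcc : Continuous c := continuous_pi fun i => hclc.comp (continuous_apply i)
  set f : (ι → ℝ) → (ι → ℝ) := fun x i =>
    cl (c x i + infDist (c x) (B i) - infDist (c x) (A i)) with hf
  have hfc : Continuous f := by
    refine continuous_pi fun i => hclc.comp ?_
    exact (((continuous_apply i).comp hcc).add ((continuous_infDist_pt (B i)).comp hcc)).sub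
      ((continuous_infDist_pt (A i)).comp hcc)
  have hfb : ∀ x, ‖f x‖ ≤ 1 := by
    intro x
    rw [pi_norm_le_iff_of_nonneg zero_le_one]
    intro i
    rw [Real.norm_eq_abs, abs_le]
    exact ⟨by linarith [hcl0 (c x i + infDist (c x) (B i) - infDist (c x) (A i))], hcl1 _⟩
  obtain ⟨x, hx⟩ := Pool.Agent.LTV.exists_fixed f hfc 1 hfb
  have hx01 : ∀ j, 0 ≤ x j ∧ x j ≤ 1 := by
    intro j
    rw [← hx]
    exact ⟨hcl0 _, hcl1 _⟩
  have hcx : c x = x := funext fun j => hclid _ (hx01 j).1 (hx01 j).2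
  refine ⟨x, hx01, fun i => ?_⟩
  have hxi : cl (x i + infDist x (B i) - infDist x (A i)) = x i := by
    have h := congrFun hx i
    simp only [hf] at h
    rw [hcx] at h
    exact h
  have dA : infDist x (A i) = 0 ↔ x ∈ A i := ((hA i).mem_iff_infDist_zero (hne0 i)).symm
  have dB : infDist x (B i) = 0 ↔ x ∈ B i := ((hB i).mem_iff_infDist_zero (hne1 i)).symm
  have pA : 0 ≤ infDist x (A i) := infDist_nonneg
  have pB : 0 ≤ infDist x (B i) := infDist_nonneg
  by_cases hxA : x ∈ A i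
  · refine ⟨hxA, ?_⟩
    by_contra hxB
    have e1 := dA.2 hxA
    have e2 : 0 < infDist x (B i) := lt_of_le_of_ne pB fun h => hxB (dB.1 h.symm)
    rw [e1, sub_zero] at hxi
    have h3 : x i ≠ 1 := fun h => hxB (h1 i x hx01 h)
    have h4 : x i < 1 := lt_of_le_of_ne (hx01 i).2 h3
    have h5 : x i < cl (x i + infDist x (B i)) := by
      rw [hcl]
      simp only
      refine lt_of_lt_of_le ?_ (le_max_right _ _)
      exact lt_min h4 (by linarith)
    linarith
  · exfalso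
    have hxB : x ∈ B i := (hAB i x hx01).resolve_left hxA
    have e1 := dB.2 hxB
    have e2 : 0 < infDist x (A i) := lt_of_le_of_ne pA fun h => hxA (dA.1 h.symm)
    rw [e1, add_zero] at hxi
    have h3 : x i ≠ 0 := fun h => hxA (h0 i x hx01 h)
    have h4 : 0 < x i := lt_of_le_of_ne (hx01 i).1 (Ne.symm h3)
    have h5 : cl (x i - infDist x (A i)) < x i := by
      rw [hcl]
      simp only
      refine max_lt h4 (lt_of_le_of_lt (min_le_right _ _) (by linarith))
    linarith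

end HE
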